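import Pool.Agent.U503.CEN.Core
import Pool.Agent.R773.HN.Defs2
import Pool.Agent.R773.HN.Defs3

/-!
# Elements which are central modulo the smallest nontrivial normal subgroup

Definitions: `Pool/Agent/R773/HN/Defs.lean` (`Homeos n`, `IsHamDiffeo`: the elements of `Ham_c(B)`,
`HamHomeo n`, `IsIntermediate`: a group between the two, `CBall`), `Pool/Agent/R773/HN/Defs3.lean`
(`SmallSupp`), `Pool/Agent/R773/HN/Defs2.lean` and `Stm2.lean` (`Prof`, `tw`: the twists),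
`Pool/Agent/Y453/HB/Stm.lean` (the same as in the frozen statement S13311).
-/

set_option autoImplicit false

open scoped commutatorElement

namespace Pool.Agent.Results.MP_68f289_gt.CentralElements

open Pool.Agent.Y453.HB (E Q)
open Pool.Agent.R773.HN

/-- `g` agrees with an element of `Ham_c(B)` off an arbitrarily small closed ball inside `B`. -/
def AlmostSmooth {n : ℕ} {Γ : Subgroup (Homeos n)} (g : Γ) : Prop :=
  ∀ ε : ℝ, 0 < ε → ∃ u : Homeos n, IsHamDiffeo u ∧ ∃ (q : E n) (s : ℝ), 0 < s ∧ s ≤ ε ∧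
    √(Q q) + s < 1 ∧ ∀ x, x ∉ CBall q s → g.1.map x = u.map x

/-- Let `n ≥ 1`, let `Γ` be any group of homeomorphisms with `Ham_c(B) ≤ Γ ≤ HamHomeo(B)`, for
instance `HamHomeo(B)` or the group of hameomorphisms `Hameo(B)`, and let `N` be any nontrivial
normal subgroup of `Γ`.

* If `f ∈ Γ` is the identity on some closed ball of radius `ρ < 1 / 2` inside `B` and `g` is a
  product of elements of `Γ` supported in closed balls of radius at most `ρ` inside `B`, then the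
  commutator of `f` and `g` is in `N`.
* If `g ∈ Γ` is, for every `ε > 0`, a product of elements of `Γ` supported in balls of radius at
  most `ε`, then `g` commutes modulo `N` with all elements of `Γ`.
* The last statement applies to all elements of `Ham_c(B)`, and to all elements of `Γ` which agree
  with elements of `Ham_c(B)` off arbitrarily small balls, in particular to the infinite twists. -/
theorem result (n : ℕ) (hn : 0 < n) (Γ : Subgroup (Homeos n)) (hΓ : IsIntermediate Γ)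
    (N : Subgroup Γ) (hN : N.Normal) (hne : N ≠ ⊥) :
    (∀ (f g : Γ) (p : E n) (ρ : ℝ), 0 < ρ → ρ < 1 / 2 → √(Q p) + ρ < 1 →
      (∀ x ∈ CBall p ρ, f.1.map x = x) → g ∈ Subgroup.closure (SmallSupp Γ ρ) → ⁅f, g⁆ ∈ N) ∧
    (∀ g : Γ, (∀ ε : ℝ, 0 < ε → g ∈ Subgroup.closure (SmallSupp Γ ε)) → ∀ f : Γ, ⁅f, g⁆ ∈ N) ∧
    (∀ g : Γ, IsHamDiffeo g.1 → ∀ f : Γ, ⁅f, g⁆ ∈ N) ∧
    (∀ g : Γ, AlmostSmooth g →
      (∀ ε : ℝ, 0 < ε → g ∈ Subgroup.closure (SmallSupp Γ ε)) ∧ ∀ f : Γ, ⁅f, g⁆ ∈ N) ∧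
    ∀ (r : ℝ) (G : (Fin n → ℝ) → ℝ), 0 < r → r < 1 → G ∈ Prof n r → ∀ T : Γ,
      (∀ z, T.1.map z = tw G z) → AlmostSmooth T ∧ ∀ f : Γ, ⁅f, T⁆ ∈ N := by
  have hM : Mid Γ := ⟨hΓ.1, hΓ.2⟩
  have h1 : ∀ (f g : Γ) (p : E n) (ρ : ℝ), 0 < ρ → ρ < 1 / 2 → √(Q p) + ρ < 1 →
      (∀ x ∈ CBall p ρ, f.1.map x = x) → g ∈ Subgroup.closure (SmallSupp Γ ρ) → ⁅f, g⁆ ∈ N :=
    fun _ _ _ _ h0 h1 h2 h3 h4 => Pool.Agent.U503.CEN.commA' hn hM hN hne h0 h1 h2 h3 h4
  have h4 : ∀ g : Γ, AlmostSmooth g → ∀ f : Γ, ⁅f, g⁆ ∈ N := fun g hg f =>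
    Pool.Agent.U503.CEN.mono_mem hN hne (Pool.Agent.U503.CEN.alm_central hn hM f.2 g.2 hg)
  have h5 : ∀ (r : ℝ) (G : (Fin n → ℝ) → ℝ), 0 < r → r < 1 → G ∈ Prof n r → ∀ T : Γ,
      (∀ z, T.1.map z = tw G z) → AlmostSmooth T := fun r G hr hr1 hG T hT =>
    Pool.Agent.U503.CEN.twist_alm hn hr hr1 hG hT
  refine ⟨h1, fun g hg f => ?_, fun g hg => h4 g (Pool.Agent.U503.CEN.ham_alm hg),
    fun g hg => ⟨fun ε hε => ?_, h4 g hg⟩, fun r G hr hr1 hG T hT =>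
      ⟨h5 r G hr hr1 hG T hT, h4 T (h5 r G hr hr1 hG T hT)⟩⟩
  · obtain ⟨p, ρ, a, b, c, d⟩ := Pool.Agent.U503.CEN.fixes_ball hn (hM.le f.2)
    exact h1 f g p ρ a b c d (hg ρ a)
  · exact Pool.Agent.U503.CEN.alm_mem' hM hg hε

end Pool.Agent.Results.MP_68f289_gt.CentralElements
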