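import Pool.Agent.U503.HP.Fin
import Pool.Agent.U293.HP.ALG
import Pool.Agent.U324.HP.GEO
import Pool.Agent.U765.HP.DL
import Pool.Agent.U858.HP.INF
import Pool.Agent.R773.HN.Defs

/-!
# Infinite products of rescaled elements of the commutator subgroup

Definitions: `Pool/Agent/R773/HN/Defs.lean` and `Pool/Agent/Y453/HB/Stm.lean` (the same as in the
frozen statement S13311): `E n` is `ℝ^{2n}`, `√(Q x)` the Euclidean norm, `HamHomeo n` the group of
compactly supported Hamiltonian homeomorphisms of the open unit ball.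

Parts of the proof: `U293/HP/ALG.lean` by helper293, `U324/HP/GEO.lean` by helper324,
`U765/HP/DL.lean` by helper765, `U858/HP/INF.lean` by helper858.
-/

set_option autoImplicit false

open Filter Topology
open scoped commutatorElement

namespace Pool.Agent.Results.MP_68f289_gt.InfiniteProducts

open Pool.Agent.Y453.HB (E Q HamBar)
open Pool.Agent.R773.HN

/-- `φ` is a product of at most `m` commutators of elements of the group `G`. -/
def CommutatorLengthLE {G : Type} [Group G] (m : ℕ) (φ : G) : Prop :=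
  ∃ l : List (G × G), l.length ≤ m ∧ φ = (l.map (fun x => ⁅x.1, x.2⁆)).prod

/-- **Infinite products.** Let `n ≥ 1`, let the closed balls `B(q k, R k)` be pairwise disjoint and
contained in a closed ball of radius `r < 1 / 2` inside the open unit ball, `R k → 0`, and let
`ρ k > 0`. Let `φ k` be Hamiltonian homeomorphisms of the unit ball which are products of at most
`m k ≥ 1` commutators, where `m k` is at most `(R k / (24 n ρ k)) ^ (2 n)`. Let `X` be the map which
is the rescaled copy of `φ k` on the ball `B(q k, ρ k)` for all `k` and the identity elsewhere. Then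
`X` is a Hamiltonian homeomorphism and belongs to every nontrivial normal subgroup of
`HamHomeo n`. -/
theorem result (n : ℕ) (hn : 0 < n) (z : E n) (r : ℝ) (hr : r < 1 / 2) (hz : √(Q z) + r < 1)
    (q : ℕ → E n) (ρ R : ℕ → ℝ) (hρ : ∀ k, 0 < ρ k) (hR : ∀ k, 0 < R k)
    (hR0 : Tendsto R atTop (𝓝 0))
    (hdis : ∀ j k, j ≠ k → Disjoint (CBall (q j) (R j)) (CBall (q k) (R k)))
    (hsub : ∀ k, CBall (q k) (R k) ⊆ CBall z r) (φ : ℕ → HamHomeo n) (m : ℕ → ℕ)
    (hm : ∀ k, 1 ≤ m k) (hmR : ∀ k, (m k : ℝ) * (24 * n * ρ k) ^ (2 * n) ≤ R k ^ (2 * n))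
    (hφ : ∀ k, CommutatorLengthLE (m k) (φ k)) :
    ∃ X : HamHomeo n,
      (∀ k x, √(Q x) ≤ 1 → X.1.map (q k + ρ k • x) = q k + ρ k • (φ k).1.map x) ∧
      (∀ y, (∀ k, y ∉ CBall (q k) (ρ k)) → X.1.map y = y) ∧
      ∀ N : Subgroup (HamHomeo n), N.Normal → N ≠ ⊥ → X ∈ N := by
  exact Pool.Agent.U503.HP.main_hp' Pool.Agent.U293.HP.t_ALG Pool.Agent.U324.HP.t_GEO
    Pool.Agent.U765.HP.t_DL (Pool.Agent.U858.HP.t_INF Pool.Agent.U765.HP.t_DL) hn z hr hz q ρ R
    hρ hR hR0 hdis hsub φ m hm hmR hφ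

end Pool.Agent.Results.MP_68f289_gt.InfiniteProducts
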