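import Pool.Agent.U939.HI.Fin
import Pool.Agent.R773.HN.Defs

/-!
# Subgroups of index less than the continuum of the Hamiltonian homeomorphisms of the ball

`HamHomeo n` is the group of the compactly supported Hamiltonian homeomorphisms of the open unit ball
of `ℝ^{2n}` (definitions: `Pool/Agent/R773/HN/Defs.lean`, `Pool/Agent/Y453/HB/Stm.lean`, the same as
in the frozen statement S13311). By the starting result `SmallestNormalSubgroup` it has a smallest
nontrivial normal subgroup `S`, which is simple.

Theorem, for all `n ≥ 1`: `S` has no proper subgroup of index less than `2 ^ ℵ₀`; so every action of
`S` on a set with less than `2 ^ ℵ₀` elements, for instance every homomorphism from `S` to the group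
of all permutations of `ℕ`, is trivial, and every subgroup of index less than `2 ^ ℵ₀` of `HamHomeo n`
contains `S` and is dense. No continuity is assumed. (The stabiliser of a point of the ball has index
`2 ^ ℵ₀` and does not contain `S`.)

Proof. Let `H` be a subgroup of `S` of index less than `2 ^ ℵ₀`. Infinite products over subsets of `ℕ`
of commutators supported in disjoint shrinking balls are elements of `S`, and two of them are in the
same coset of `H`. It follows that for one of the balls `D` all commutators of elements supported in
`D` agree on `D` with elements of `H`, and that `H` contains a nontrivial element supported in `D`;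
by Higman's trick `H` contains the second commutators of the elements supported in a small ball `D'`.
For a one-parameter group in `S` the elements in `H` are dense, so the elements of `HamHomeo n` all of
whose conjugates are uniform limits of elements of `H` form a nontrivial normal subgroup; so `H` is
dense. Every conjugate of a fixed second commutator is moved into `D'` by an element of `H`. So `H`
contains a nontrivial normal subgroup of `HamHomeo n`.
-/

set_option autoImplicit false

namespace Pool.Agent.Results.MP_68f289_gt.SmallIndex

open Pool.Agent.R773.HN

/-- the smallest nontrivial normal subgroup, and it is a simple group -/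
def IsSmallestNormal {G : Type} [Group G] (S : Subgroup G) : Prop :=
  S.Normal ∧ IsSimpleGroup S ∧ ∀ N : Subgroup G, N.Normal → N ≠ ⊥ → S ≤ N

/-- the index is less than the continuum -/
def IndexLT {G : Type} [Group G] (H : Subgroup G) : Prop :=
  Cardinal.mk (G ⧸ H) < Cardinal.continuum

/-- no proper subgroup has index less than the continuum -/
def NoSmallIndex (G : Type) [Group G] : Prop := ∀ H : Subgroup G, IndexLT H → H = ⊤

/-- all actions on sets with fewer elements than the continuum are trivial -/
def NoSmallAction (G : Type) [Group G] : Prop :=
  ∀ (X : Type) [MulAction G X], Cardinal.mk X < Cardinal.continuum → ∀ (g : G) (x : X), g • x = x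

/-- The group `HamHomeo n`, `n ≥ 1`, has a smallest nontrivial normal subgroup `S`, which is a simple
group, without proper subgroups of index less than `2 ^ ℵ₀` and without nontrivial actions on sets with
less than `2 ^ ℵ₀` elements; every subgroup of `HamHomeo n` of index less than `2 ^ ℵ₀` contains `S`
and is dense with respect to uniform convergence. -/
theorem result (n : ℕ) (hn : 0 < n) :
    ∃ S : Subgroup (HamHomeo n), IsSmallestNormal S ∧ NoSmallIndex S ∧ NoSmallAction S ∧
      ∀ H : Subgroup (HamHomeo n), IndexLT H → S ≤ H ∧ DenseInHam (H : Set (HamHomeo n)) := by
  obtain ⟨S, s1, s2, s3, s4, s5, s6⟩ := Pool.Agent.U939.HI.fin hn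
  exact ⟨S, ⟨s1, s2, s3⟩, s4, s5, s6⟩

end Pool.Agent.Results.MP_68f289_gt.SmallIndex
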