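import Pool.Agent.U503.SPR.Fin
import Pool.Agent.U55.SPR.A2
import Pool.Agent.U981.SPR.DIS
import Pool.Agent.U873.SPR.G2
import Pool.Agent.U356.SPR.LIP
import Pool.Agent.U312.SPR.DSJ
import Pool.Agent.U765.HP.DL
import Pool.Agent.U858.HP.INF
import Pool.Agent.R773.HN.Defs

/-!
# Spreading infinite products of Hamiltonian homeomorphisms of the ball

Definitions: `Pool/Agent/R773/HN/Defs.lean` and `Pool/Agent/Y453/HB/Stm.lean` (the same as in the
frozen statement S13311): `E n` is `ℝ^{2n}`, `√(Q x)` the Euclidean norm, `HamHomeo n` the group of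
compactly supported Hamiltonian homeomorphisms of the open unit ball.

Parts of the proof: A2 by helper55, DIS by helper981, G2 by helper873, LIP by helper356, DSJ by
helper312 (folders SPR), DL by helper765, INF by helper858 (folders HP).
-/

set_option autoImplicit false

open Filter Topology
open scoped commutatorElement

namespace Pool.Agent.Results.MP_68f289_gt.SpreadingProducts

open Pool.Agent.Y453.HB (E Q HamBar)
open Pool.Agent.R773.HN

/-- The vector of `ℝ^{2n}` with the coordinates `a i` and `b i`. -/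
def gridVec (n : ℕ) (a b : Fin n → ℕ) : E n := (fun i => (a i : ℝ), fun i => (b i : ℝ))

/-- All entries of `a` and `b` are in `{0, …, L - 1}`. -/
def InGrid {n : ℕ} (L : ℕ) (a b : Fin n → ℕ) : Prop := ∀ i, a i < L ∧ b i < L

/-- `f` is Lipschitz with constant `C` for the Euclidean norm. -/
def IsLipschitz {n : ℕ} (C : ℝ) (f : HamHomeo n) : Prop :=
  ∀ x y, √(Q (f.1.map x - f.1.map y)) ≤ C * √(Q (x - y))

/-- **Spreading.** Let `n ≥ 1`, let the closed balls `B(q k, R k)` be pairwise disjoint and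
contained in a closed ball of radius `r < 1 / 2` inside the open unit ball, `R k → 0`, let `ρ k > 0`
and let `L k ≥ 1` be integers with `12 n (L k) (ρ k) ≤ R k`. Let `φ k` be arbitrary Hamiltonian
homeomorphisms of the unit ball. Let `X` be the map which is the rescaled copy of the power
`φ k ^ (L k ^ (2 n))` on the ball `B(q k, ρ k)` for all `k`, and let `Y` be the map which is the
rescaled copy of `φ k` on each of the `L k ^ (2 n)` disjoint balls of radius `ρ k` with the centres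
`q k + 3 (ρ k) v`, where `v` is in `{0, …, L k - 1}^(2 n)`. Then `X` and `Y` are Hamiltonian
homeomorphisms and `X Y⁻¹` belongs to every nontrivial normal subgroup of `HamHomeo n`. If all `φ k`
are Lipschitz with constant `C`, then so is `Y`; the same holds for the inverses. -/
theorem result (n : ℕ) (hn : 0 < n) (z : E n) (r : ℝ) (hr : r < 1 / 2) (hz : √(Q z) + r < 1)
    (q : ℕ → E n) (ρ R : ℕ → ℝ) (L : ℕ → ℕ) (hL : ∀ k, 1 ≤ L k) (hρ : ∀ k, 0 < ρ k)
    (hLR : ∀ k, 12 * n * L k * ρ k ≤ R k) (hR0 : Tendsto R atTop (𝓝 0))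
    (hdis : ∀ j k, j ≠ k → Disjoint (CBall (q j) (R j)) (CBall (q k) (R k)))
    (hsub : ∀ k, CBall (q k) (R k) ⊆ CBall z r) (φ : ℕ → HamHomeo n) :
    ∃ X Y : HamHomeo n,
      (∀ k x, √(Q x) ≤ 1 →
        X.1.map (q k + ρ k • x) = q k + ρ k • (φ k ^ (L k ^ (2 * n))).1.map x) ∧
      (∀ y, (∀ k, y ∉ CBall (q k) (ρ k)) → X.1.map y = y) ∧
      (∀ k a b, InGrid (L k) a b → ∀ x, √(Q x) ≤ 1 →
        Y.1.map (q k + (3 * ρ k) • gridVec n a b + ρ k • x) =
          q k + (3 * ρ k) • gridVec n a b + ρ k • (φ k).1.map x) ∧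
      (∀ y, (∀ k a b, InGrid (L k) a b →
        y ∉ CBall (q k + (3 * ρ k) • gridVec n a b) (ρ k)) → Y.1.map y = y) ∧
      (∀ N : Subgroup (HamHomeo n), N.Normal → N ≠ ⊥ → X * Y⁻¹ ∈ N) ∧
      (∀ C : ℝ, (∀ k, IsLipschitz C (φ k)) → IsLipschitz C Y) ∧
      ∀ C : ℝ, (∀ k, IsLipschitz C (φ k)⁻¹) → IsLipschitz C Y⁻¹ := by
  exact Pool.Agent.U503.SPR.main_spr' Pool.Agent.U55.SPR.A2.t_A2
    (Pool.Agent.U873.SPR.t_G2 Pool.Agent.U981.SPR.t_DIS) Pool.Agent.U356.SPR.t_LIP
    Pool.Agent.U312.SPR.t_DSJ Pool.Agent.U765.HP.t_DL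
    (Pool.Agent.U858.HP.t_INF Pool.Agent.U765.HP.t_DL) hn z hr hz q ρ R L hL hρ hLR hR0 hdis hsub φ

end Pool.Agent.Results.MP_68f289_gt.SpreadingProducts
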